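import Pool.Agent.H.MP_cfec29_an.B

set_option autoImplicit false

namespace Pool.Agent.Results.MP_cfec29_an.No

/-- convex-cyclic operators -/
def ConvexCyclic {H : Type} [NormedAddCommGroup H] [InnerProductSpace ℂ H] (T : H →L[ℂ] H) : Prop :=
  ∃ x : H, Dense (convexHull ℝ (Set.range fun n : ℕ => T^[n] x))

theorem result : ∃ (H : Type) (_ : NormedAddCommGroup H) (_ : InnerProductSpace ℂ H)
    (_ : CompleteSpace H) (T : H →L[ℂ] H), ConvexCyclic T ∧ ¬ ConvexCyclic (-T) := by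
  refine ⟨lp (fun _ : ℕ => ℂ) 2, inferInstance, inferInstance, inferInstance,
    Pool.Agent.H.MP_cfec29_an.T, ⟨Pool.Agent.H.MP_cfec29_an.e 0, ?_⟩,
    fun ⟨x, h⟩ => Pool.Agent.H.MP_cfec29_an.ncyc x ?_⟩
  · have := Pool.Agent.H.MP_cfec29_an.cyc
    simp only [ContinuousLinearMap.coe_pow'] at this
    exact this
  · simp only [ContinuousLinearMap.coe_pow']
    exact h

end Pool.Agent.Results.MP_cfec29_an.No
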